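import Pool.Agent.V1157.GA.Chow

/-!
# The Galois group algebra acts with unbounded ranks on kernels of Abel-Jacobi maps

Let `F` be a number field with absolute Galois group `G`, fix a dimension `n` and a codimension `r`,
and let `f` be any non-zero element of the group algebra `ℚ[G]`, for example `1`, or `1 - c` for a
complex conjugation `c`. For a variety `X` over `F` of dimension `n` let `N(X)` be the kernel of the
Abel-Jacobi map on the homologically trivial cycles of codimension `r` on `X` over `ℚ̄`, modulo
torsion. If the dimension of `f N(X)` is at most `D`, for all `X`, then `N(X) = 0` for all `X`.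

Proof: let `z ∈ N(S)`. Choose `h₀` in the support of `f` and a subgroup `U` of finite index
containing no `h⁻¹ h₀`, `h ≠ h₀` in the support. Let `V` over `F` be a complete intersection, of
dimension `n`, in the restriction of scalars of `S^(D+1)` from the fixed field of `U`; it has
projections `p i m : V ⟶ S` over `ℚ̄`, `i ∈ G/U`, `m ≤ D`, which are permuted by `G`. Put
`z_m = (p 1 m)^* z`. If `∑ c_m f z_m = 0` then its push-forward by `p h₀ m` is zero. But
`(p h₀ m)_* h z_m' = h (p (h⁻¹ h₀) m)_* (p 1 m')^* z` is zero unless `h = h₀` and `m' = m`, and in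
this case it is a non-zero multiple of `h₀ z`.
-/

open CategoryTheory AlgebraicGeometry

universe u v w x y

namespace Pool.Agent.Results.MP_537ea0_ag.GroupAlgebraRanks

open Pool.Agent.H914 Pool.Agent.H914.VarClass Pool.Agent.H914.VarClass.Obj Pool.Agent.W492.BB
  Pool.Agent.TH133 Pool.Agent.Y148.BB Pool.Agent.V1157.GA

theorem result {k : Type u} [Field k] {𝒱 : VarClass k} {C : TheoryData.{u, v, 0} 𝒱 ℚ}
    [IsChowProj C] {K : Type w} [Field K] (H : WeilTheoryData.{u, v, w} C K) [IsWeilProj H]
    (N : ∀ X : 𝒱.Obj, ℕ → Submodule ℚ (C.A X)) (hN : IsAbelJacobiKernel H N)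
    {G : Type x} [Group G] (R : Forms.{u, v, 0, x, y} G C) (hR : IsGalois R 1)
    (n r : ℕ) (hP : HasTwistedPowers R C n) (f : G →₀ ℚ) (hf : f ≠ 0) :
    AbelJacobiInjective R N n r ↔ ∃ D, KernelRankAtMost R N n r f D :=
  ⟨fun h => ⟨0, rank_of_injective hR h f⟩, fun ⟨_, hD⟩ => injective_of_rank hN hR hP hf hD⟩

end Pool.Agent.Results.MP_537ea0_ag.GroupAlgebraRanks
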