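import Pool.Agent.H255R.MR.Map

/-!
# The Abel-Jacobi map for products of regular surfaces and for products of curves
-/

open CategoryTheory AlgebraicGeometry

universe u v w

namespace Pool.Agent.Results.MP_537ea0_ag.RegularSurfaces

open Pool.Agent.H914 Pool.Agent.H914.VarClass Pool.Agent.H914.VarClass.Obj Pool.Agent.W492.BB
  Pool.Agent.W550.Corr Pool.Agent.TH133 Pool.Agent.H255R.HR Pool.Agent.H255R.MR

/-- The rational Abel-Jacobi maps of the variety `X` are injective in codimension at most `R`: the
cycles of codimension `r ≤ R` whose class `φ(z)` in Deligne cohomology is zero (the cycles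
homologically equivalent to zero with vanishing Abel-Jacobi invariant) are rationally equivalent to
zero, with rational coefficients. -/
def AJInjective {k : Type u} [Field k] {𝒱 : VarClass k} {C : TheoryData.{u, v, 0} 𝒱 ℚ}
    {D : ModData.{u, v, v} C} (φ : ∀ X, C.A X → D.A X) (R : ℤ) (X : 𝒱.Obj) : Prop :=
  ∀ r ≤ R, ∀ z : C.A X, C.Deg r z → φ X z = 0 → z = 0

/-- Consider the smooth projective varieties `X` over `ℚ̄`, their Chow groups with rational
coefficients, and the cycle classes `φ(z)` in the Deligne cohomology `D(X) = ⊕ H_D^j(X_ℂ, ℚ(r))`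
(the kernel of `φ` on `CH^r(X)_ℚ` is the kernel of the Abel-Jacobi map `Φ_{r,ℚ}`). More
generally, let `φ` be a transformation, compatible with pull-backs, push-forwards and products with
cycles, from the Chow groups to any module theory over the Chow groups.

Let `𝒞` be a class of curves with `HasGalQuotients` (for example all curves, or one hyperelliptic
curve). For all varieties `U` and all `R` and `N` the following statements are equivalent.

1. The Abel-Jacobi maps in codimension at most `R` are injective for the varieties `U × A` and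
`U × A × S`, where `A` is a product of at most `N` regular surfaces dominated by products of two
curves in `𝒞`, and `S` is a curve in `𝒞`.
2. The same without the condition that the surfaces be regular.
3. The Abel-Jacobi maps in codimension at most `R` are injective for `U × W`, where `W` is a product
of at most `2 N + 1` curves in `𝒞`.
4. The Abel-Jacobi maps in codimension at most `R` are injective for all varieties which are
dominated by varieties `U × W` as in 3. -/
theorem result {k : Type u} [Field k] {𝒱 : VarClass k} (C : TheoryData.{u, v, 0} 𝒱 ℚ)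
    [IsChowProj C] (hC : IsModTheory (chowMod C)) {F : Type w} [Field F] [CharZero F]
    (H : WeilTheoryData.{u, v, w} C F) [IsWeilProj H] (D : ModData.{u, v, v} C)
    (hD : IsModTheory D) (φ : ∀ X, C.A X → D.A X) (hφ : IsTransformation (chowMod C) D φ)
    (𝒞 : 𝒱.Obj → Prop) (hG : HasGalQuotients.{u, v, w, v} H 𝒞) (U : 𝒱.Obj) (R : ℤ) (N : ℕ) :
    List.TFAE [
      ∀ m ≤ N, ∀ A : 𝒱.Obj, IsProdOf U (IsRegDominated.{u, v, w, v} H 𝒞) m A →
        AJInjective φ R A ∧ ∀ S : 𝒱.Obj, 𝒞 S → AJInjective φ R (A.prod S),
      ∀ m ≤ N, ∀ A : 𝒱.Obj, IsProdOf U (IsDominated.{u, v, v} C 𝒞) m A →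
        AJInjective φ R A ∧ ∀ S : 𝒱.Obj, 𝒞 S → AJInjective φ R (A.prod S),
      ∀ n ≤ 2 * N + 1, ∀ W : 𝒱.Obj, IsProdOf U 𝒞 n W → AJInjective φ R W,
      ∀ n ≤ 2 * N + 1, ∀ W X : 𝒱.Obj, IsProdOf U 𝒞 n W → IsDominatedBy C W X →
        AJInjective φ R X] :=
  tfae1 (M := chowMod C) (𝓜 := kerFam hφ (chowFam C)) (𝓝 := zeroFam (chowMod C)) hG U R N _
    fun X => (good_inj hφ (chowFam C) R X).symm

end Pool.Agent.Results.MP_537ea0_ag.RegularSurfaces
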